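import Pool.Agent.H37.Sch1

namespace Pool.Agent.Results.MP_98e6b1_co.AllFromEight

open Pool.Agent.H37.Sch

theorem result (k : ℕ) (hk : 8 ≤ k) :
    ∃ (V : Type) (_ : Finite V) (G : SimpleGraph V), Critical k G ∧ ¬ HasScheme k G := by
  classical
  obtain ⟨m, rfl⟩ := Nat.exists_eq_add_of_le hk
  refine ⟨B ⊕ Fin m, inferInstance, Gr m, critical m, ?_⟩
  rintro ⟨f, x, hx, hp⟩
  have val : ∀ a b, adj a b → f a ≠ f b := fun a b h => f.valid (show (Gr m).Adj a b from h)
  have pair : ∀ d : Fin 5, ∃ s t : Fin 3, f (.inl (d, s)) = f (.inl (d + 2, t)) := by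
    intro d
    by_contra hn
    push Not at hn
    let r : Fin 3 → Fin 5 := ![d, d + 1, d + 2]
    have hr : ∀ d : Fin 5, ∀ p q : Fin 3 × Fin 3, p ≠ q →
        badj (![d, d + 1, d + 2] p.1, p.2) (![d, d + 1, d + 2] q.1, q.2) ∨
          (p.1 = 0 ∧ q.1 = 2) ∨ (p.1 = 2 ∧ q.1 = 0) := by decide +kernel
    have hinj : Function.Injective (fun z : (Fin 3 × Fin 3) ⊕ Fin m =>
        f (Sum.map (fun p : Fin 3 × Fin 3 => ((r p.1, p.2) : B)) id z)) := by
      rintro (p | p) (q | q) e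
      · by_contra hne
        rcases hr d p q (fun h => hne (congrArg _ h)) with h | h | h
        · exact val (.inl _) (.inl _) h e
        · simp only [Sum.map_inl, h.1, h.2] at e
          exact hn _ _ e
        · simp only [Sum.map_inl, h.1, h.2] at e
          exact hn _ _ e.symm
      · exact absurd e (val (.inl _) (.inr _) trivial)
      · exact absurd e (val (.inr _) (.inl _) trivial)
      · by_contra hne
        exact val (.inr p) (.inr q) (fun h => hne (congrArg _ h)) e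
    have := Fintype.card_le_of_injective _ hinj
    simp at this
  choose s t hst using pair
  let c : Fin 5 → Fin (8 + m) := fun d => f (.inl (d, s d))
  have cls : ∀ d v, f v = c d → ∃ w : B, v = .inl w ∧ (w.1 = d ∨ w.1 = d + 2) := by
    rintro d (w | w) h
    · refine ⟨w, rfl, ?_⟩
      have h1 : ¬ badj w (d, s d) := fun a => val (.inl _) (.inl _) a h
      have h2 : ¬ badj w (d + 2, t d) := fun a => val (.inl _) (.inl _) a (h.trans (hst d))
      have : ∀ (d : Fin 5) (s t : Fin 3) (w : B), ¬ badj w (d, s) → ¬ badj w (d + 2, t) →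
          w.1 = d ∨ w.1 = d + 2 := by decide +kernel
      exact this _ _ _ _ h1 h2
    · exact absurd h (val (.inr _) (.inl _) trivial)
  let P : Fin 5 → B ⊕ Fin m → Prop := fun d v => ∃ w : B, v = .inl w ∧ w.1 = d
  have hP : ∀ (d : Fin 5) (y : B), P d (.inl y) ↔ y.1 = d := fun d y =>
    ⟨fun ⟨w, h1, h2⟩ => Sum.inl_injective h1 ▸ h2, fun h => ⟨y, rfl, h⟩⟩
  have inv : ∀ (d : Fin 5) (a b : B ⊕ Fin m) (p : (Gr m).Walk a b),
      (∀ v ∈ p.support, f v = c d ∨ f v = c (d + 2)) → (P (d + 2) a ↔ P (d + 2) b) := by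
    intro d a b p
    induction p with
    | nil => exact fun _ => Iff.rfl
    | @cons u v w h p ih =>
      intro hs
      refine Iff.trans ?_ (ih fun z hz => hs z (by simp [hz]))
      have ty : ∀ z, f z = c d ∨ f z = c (d + 2) →
          ∃ y : B, z = .inl y ∧ (y.1 = d ∨ y.1 = d + 2 ∨ y.1 = d + 2 + 2) := by
        rintro z (hz | hz)
        · obtain ⟨y, h1, h2⟩ := cls _ _ hz
          exact ⟨y, h1, by tauto⟩
        · obtain ⟨y, h1, h2⟩ := cls _ _ hz
          exact ⟨y, h1, by tauto⟩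
      obtain ⟨y, rfl, hy⟩ := ty u (hs u (by simp))
      obtain ⟨z, rfl, hz⟩ := ty v (hs v (by simp))
      have h' : y.1 = z.1 ∨ y.1 = z.1 + 1 ∨ z.1 = y.1 + 1 := (show badj y z from h).2
      have : ∀ d y z : Fin 5, (y = z ∨ y = z + 1 ∨ z = y + 1) →
          (y = d ∨ y = d + 2 ∨ y = d + 2 + 2) → (z = d ∨ z = d + 2 ∨ z = d + 2 + 2) →
          (y = d + 2 ↔ z = d + 2) := by decide +kernel
      rw [hP, hP]
      exact this d _ _ h' hy hz
  have step : ∀ d : Fin 5, P (d + 2) (x (c d)) ↔ ¬ P (d + 2 + 2) (x (c (d + 2))) := by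
    intro d
    have hne : c d ≠ c (d + 2) := by
      intro e
      obtain ⟨w, h1, h2⟩ := cls d (.inl (d + 2 + 2, t (d + 2))) ((hst (d + 2)).symm.trans e.symm)
      obtain rfl := Sum.inl_injective h1
      revert h2
      have : ∀ d : Fin 5, ¬ (d + 2 + 2 = d ∨ d + 2 + 2 = d + 2) := by decide
      exact this d
    have h1 : P (d + 2) (x (c d)) ↔ P (d + 2) (x (c (d + 2))) := by
      rcases lt_or_gt_of_ne hne with h | h
      · obtain ⟨p, -, hp'⟩ := hp _ _ h
        exact inv d _ _ p hp'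
      · obtain ⟨p, -, hp'⟩ := hp _ _ h
        exact (inv d _ _ p fun v hv => (hp' v hv).symm).symm
    rw [h1]
    obtain ⟨w, h2, h3⟩ := cls (d + 2) _ (hx (c (d + 2)))
    rw [h2]
    have : ∀ d y : Fin 5, (y = d + 2 ∨ y = d + 2 + 2) → (y = d + 2 ↔ ¬ y = d + 2 + 2) := by decide
    rw [hP, hP]
    exact this d _ h3
  have s0 : P 2 (x (c 0)) ↔ ¬ P 4 (x (c 2)) := step 0
  have s1 : P 3 (x (c 1)) ↔ ¬ P 0 (x (c 3)) := step 1
  have s2 : P 4 (x (c 2)) ↔ ¬ P 1 (x (c 4)) := step 2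
  have s3 : P 0 (x (c 3)) ↔ ¬ P 2 (x (c 0)) := step 3
  have s4 : P 1 (x (c 4)) ↔ ¬ P 3 (x (c 1)) := step 4
  rw [s2, s4, s1, s3, not_not, not_not] at s0
  exact iff_not_self s0

end Pool.Agent.Results.MP_98e6b1_co.AllFromEight
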